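import Mathlib

set_option autoImplicit false

/-!
The space of continuous two-valued functions on the Baire space, with the pointwise topology,
does not sit inside any regular space that is a continuous image of the Baire space.
-/

namespace Pool.Agent.Lib.MP_2beacb_gt

open Function Set Topology

/-- Continuous two-valued functions on the Baire space, pointwise topology. -/
abbrev E : Type := {f : (ℕ → ℕ) → Bool // Continuous f}

/-- `y` agrees with `x` below `k`. -/
def Agree (x : ℕ → ℕ) (k : ℕ) (y : ℕ → ℕ) : Prop := ∀ i < k, y i = x i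

theorem Agree.mono {x y : ℕ → ℕ} {k l : ℕ} (h : Agree x l y) (hkl : k ≤ l) : Agree x k y :=
  fun i hi => h i (lt_of_lt_of_le hi hkl)

theorem Agree.refl (x : ℕ → ℕ) (k : ℕ) : Agree x k x := fun _ _ => rfl

theorem agree_congr {x x' : ℕ → ℕ} {k : ℕ} (h : Agree x k x') : Agree x k = Agree x' k := by
  funext y
  apply propext
  constructor
  · intro hy i hi
    rw [hy i hi, h i hi]
  · intro hy i hi
    rw [hy i hi, h i hi]

theorem isClopen_agree (x : ℕ → ℕ) (k : ℕ) : IsClopen {y | Agree x k y} := by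
  have : {y | Agree x k y} = ⋂ i ∈ Finset.range k, (fun y : ℕ → ℕ => y i) ⁻¹' {x i} := by
    ext y
    simp [Agree]
  rw [this]
  exact isClopen_biInter_finset fun i _ =>
    (isClopen_discrete _).preimage (continuous_apply i)

theorem exists_agree_subset {x : ℕ → ℕ} {U : Set (ℕ → ℕ)} (hU : U ∈ 𝓝 x) :
    ∃ k, ∀ y, Agree x k y → y ∈ U := by
  rw [nhds_pi, Filter.mem_pi] at hU
  obtain ⟨I, hI, t, ht, hsub⟩ := hU
  obtain ⟨k, hk⟩ := hI.bddAbove
  refine ⟨k + 1, fun y hy => hsub fun i hi => ?_⟩
  rw [hy i (Nat.lt_succ_of_le (hk hi))]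
  exact mem_of_mem_nhds (ht i)

/-- `D` is large at the cylinder of `x` of length `k`: its traces there are everything. -/
def Large (D : Set E) (x : ℕ → ℕ) (k : ℕ) : Prop :=
  ∀ h : E, ∃ f ∈ D, ∀ y, Agree x k y → f.1 y = h.1 y

theorem Large.mono {D : Set E} {x : ℕ → ℕ} {k l : ℕ} (h : Large D x k) (hkl : k ≤ l) :
    Large D x l := by
  intro g
  obtain ⟨f, hf, hfg⟩ := h g
  exact ⟨f, hf, fun y hy => hfg y (hy.mono hkl)⟩

theorem large_congr {D : Set E} {x x' : ℕ → ℕ} {k : ℕ} (h : Agree x k x') :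
    Large D x k ↔ Large D x' k := by
  unfold Large
  rw [agree_congr h]

/-- The diagonal step. -/
theorem Large.step {D : Set E} {x : ℕ → ℕ} {k : ℕ} (h : Large D x k) (Dn : ℕ → Set E)
    (hD : ∀ f ∈ D, ∃ i, f ∈ Dn i) : ∃ i, Large (Dn i) (update x k i) (k + 1) := by
  by_contra hcon
  push Not at hcon
  unfold Large at hcon
  push Not at hcon
  choose hh hhh using hcon
  have hc : Continuous fun y : ℕ → ℕ => (hh (y k)).1 y := by
    have h1 : Continuous fun q : ℕ × (ℕ → ℕ) => (hh q.1).1 q.2 :=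
      continuous_prod_of_discrete_left.2 fun i => (hh i).2
    have h2 : Continuous fun y : ℕ → ℕ => ((y k, y) : ℕ × (ℕ → ℕ)) :=
      (continuous_apply k).prodMk continuous_id
    exact h1.comp h2
  obtain ⟨f, hf, hfh⟩ := h ⟨_, hc⟩
  obtain ⟨i, hi⟩ := hD f hf
  obtain ⟨y, hy, hne⟩ := hhh i f hi
  apply hne
  have hyk : y k = i := by simpa using hy k (Nat.lt_succ_self k)
  have hy' : Agree x k y := by
    intro j hj
    have := hy j (Nat.lt_succ_of_lt hj)
    rwa [update_of_ne (ne_of_lt hj)] at this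
  rw [hfh y hy']
  simp [hyk]

/-- Functions vanishing off the cylinder of `x` of length `n`. -/
def Et (x : ℕ → ℕ) (n : ℕ) : Set E := {f | ∀ y, ¬ Agree x n y → f.1 y = false}

theorem et_congr {x x' : ℕ → ℕ} {n : ℕ} (h : Agree x n x') : Et x n = Et x' n := by
  unfold Et
  rw [agree_congr h]

theorem large_et (x : ℕ → ℕ) (n : ℕ) : Large (Et x n) x n := by
  classical
  intro h
  have hc : Continuous fun y : ℕ → ℕ => if Agree x n y then h.1 y else false := by
    refine Continuous.if ?_ h.2 continuous_const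
    intro a ha
    rw [(isClopen_agree x n).frontier_eq] at ha
    exact absurd ha (by simp)
  refine ⟨⟨_, hc⟩, fun y hy => by simp [hy], fun y hy => by simp [hy]⟩

/-- Recursion with choices. -/
theorem exists_rec (R : ℕ → (ℕ → ℕ) → Prop)
    (hdep : ∀ k x y, Agree x (k + 1) y → R k x → R k y)
    (hex : ∀ k x, ∃ i, R k (update x k i)) : ∃ x, ∀ k, R k x := by
  choose c hc using hex
  let z : ℕ → ℕ → ℕ := fun k => Nat.rec (fun _ => 0) (fun k w => update w k (c k w)) k
  have hz : ∀ k, z (k + 1) = update (z k) k (c k (z k)) := fun k => rfl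
  have hstab : ∀ l k, k ≤ l → Agree (z k) k (z l) := by
    intro l k hkl
    induction l, hkl using Nat.le_induction with
    | base => exact Agree.refl _ _
    | succ l hkl ih =>
      intro i hi
      rw [hz, update_of_ne (by omega)]
      exact ih i hi
  refine ⟨fun k => z (k + 1) k, fun k => hdep k (z (k + 1)) _ ?_ (hz k ▸ hc k (z k))⟩
  intro i hi
  exact (hstab (k + 1) (i + 1) (by omega) i (Nat.lt_succ_self i)).symm

section main

variable {Y : Type*} (g : (ℕ → ℕ) → Y) (e : E → Y)

/-- Functions whose image lies in the image of a cylinder. -/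
def Ds (p : ℕ → ℕ) (m : ℕ) : Set E := {f | ∃ q, Agree p m q ∧ g q = e f}

theorem ds_congr {p p' : ℕ → ℕ} {m : ℕ} (h : Agree p m p') : Ds g e p m = Ds g e p' m := by
  unfold Ds
  rw [agree_congr h]

/-- The `n`-th column of `x`. -/
def col (x : ℕ → ℕ) (n : ℕ) : ℕ → ℕ := fun j => x (Nat.pair n j)

theorem exists_diag (hs : Surjective g) :
    ∃ x : ℕ → ℕ, ∀ n m, Large (Ds g e (col x n) m ∩ Et x n) x (Nat.pair n m) := by
  have hcol : ∀ (x y : ℕ → ℕ) (n m : ℕ), Agree x (Nat.pair n m + 1) y →
      Agree (col x n) (m + 1) (col y n) := by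
    intro x y n m h j hj
    apply h
    rcases Nat.lt_succ_iff_lt_or_eq.1 hj with hj | hj
    · exact Nat.lt_succ_of_lt (Nat.pair_lt_pair_right n hj)
    · rw [hj]; exact Nat.lt_succ_self _
  obtain ⟨x, hx⟩ := exists_rec
    (fun k x => Large (Ds g e (col x k.unpair.1) k.unpair.2 ∩ Et x k.unpair.1) x k →
      Large (Ds g e (col x k.unpair.1) (k.unpair.2 + 1) ∩ Et x k.unpair.1) x (k + 1))
    (by
      intro k x y hxy hR
      have h1 := hcol x y k.unpair.1 k.unpair.2 (by rwa [Nat.pair_unpair])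
      have h2 : Agree x k.unpair.1 y :=
        hxy.mono (le_trans (Nat.unpair_left_le k) (Nat.le_succ k))
      rw [← ds_congr g e h1, ← ds_congr g e (h1.mono (Nat.le_succ _)), ← et_congr h2,
        ← large_congr hxy, ← large_congr (hxy.mono (Nat.le_succ _))]
      exact hR)
    (by
      intro k x
      obtain ⟨n, m, rfl⟩ : ∃ n m, k = Nat.pair n m := ⟨_, _, (Nat.pair_unpair k).symm⟩
      simp only [Nat.unpair_pair]
      have hu : ∀ i, Agree x (Nat.pair n m) (update x (Nat.pair n m) i) := by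
        intro i j hj
        rw [update_of_ne (ne_of_lt hj)]
      have hcu : ∀ i, Agree (col x n) m (col (update x (Nat.pair n m) i) n) := by
        intro i j hj
        exact hu i _ (Nat.pair_lt_pair_right n hj)
      by_cases hL : Large (Ds g e (col x n) m ∩ Et x n) x (Nat.pair n m)
      · obtain ⟨i, hi⟩ := hL.step
          (fun i => Ds g e (col (update x (Nat.pair n m) i) n) (m + 1) ∩ Et x n) (by
            rintro f ⟨⟨q, hq, hqf⟩, hf⟩
            refine ⟨q m, ⟨q, ?_, hqf⟩, hf⟩
            intro j hj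
            rcases Nat.lt_succ_iff_lt_or_eq.1 hj with hj | hj
            · rw [hq j hj, hcu _ j hj]
            · rw [hj]; simp [col])
        refine ⟨i, fun _ => ?_⟩
        rw [← et_congr ((hu i).mono (Nat.left_le_pair n m))]
        exact hi
      · refine ⟨0, fun h => absurd ?_ hL⟩
        rwa [← ds_congr g e (hcu 0), ← et_congr ((hu 0).mono (Nat.left_le_pair n m)),
          ← large_congr (hu 0)] at h)
  refine ⟨x, fun n m => ?_⟩
  induction m with
  | zero =>
    have : Ds g e (col x n) 0 = univ := by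
      ext f
      simp only [mem_univ, iff_true]
      obtain ⟨q, hq⟩ := hs (e f)
      exact ⟨q, fun i hi => absurd hi (Nat.not_lt_zero i), hq⟩
    rw [this, univ_inter]
    exact (large_et x n).mono (Nat.left_le_pair n 0)
  | succ m ih =>
    have h := hx (Nat.pair n m)
    simp only [Nat.unpair_pair] at h
    exact (h ih).mono (Nat.pair_lt_pair_right n (Nat.lt_succ_self m))

theorem core [TopologicalSpace Y] [RegularSpace Y] (hg : Continuous g) (hs : Surjective g)
    (he : IsInducing e) : False := by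
  classical
  obtain ⟨x, hx⟩ := exists_diag g e hs
  let z : E := ⟨fun _ => false, continuous_const⟩
  let o : E := ⟨fun _ => true, continuous_const⟩
  have hO : IsOpen {f : E | f.1 x = false} := by
    have h1 : Continuous fun f : E => f.1 x := (continuous_apply x).comp continuous_subtype_val
    exact (isOpen_discrete {false}).preimage h1
  obtain ⟨V, hV, hVe⟩ := he.isOpen_iff.1 hO
  have hzV : e z ∈ V := by
    have : z ∈ e ⁻¹' V := by rw [hVe]; rfl
    exact this
  obtain ⟨W, hW, hWc, hWV⟩ := exists_mem_nhds_isClosed_subset (hV.mem_nhds hzV)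
  have hW' : e ⁻¹' W ∈ 𝓝 z := he.continuous.continuousAt hW
  rw [nhds_induced, Filter.mem_comap] at hW'
  obtain ⟨U, hU, hUW⟩ := hW'
  rw [nhds_pi, Filter.mem_pi] at hU
  obtain ⟨F, hF, t, ht, hsub⟩ := hU
  have hn : ∃ n, ∀ y ∈ F, Agree x n y → y = x := by
    have hnb : (F \ {x})ᶜ ∈ 𝓝 x :=
      (hF.sdiff.isClosed.isOpen_compl).mem_nhds (by simp)
    obtain ⟨n, hn⟩ := exists_agree_subset hnb
    refine ⟨n, fun y hy hxy => ?_⟩
    have := hn y hxy
    by_contra hne
    exact this ⟨hy, hne⟩
  obtain ⟨n, hn⟩ := hn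
  by_cases hp : g (col x n) ∈ V
  · obtain ⟨m, hm⟩ := exists_agree_subset (hg.continuousAt (hV.mem_nhds hp))
    obtain ⟨f, ⟨⟨q, hq, hqf⟩, -⟩, hf⟩ := hx n m o
    have h1 : f ∈ e ⁻¹' V := by
      have := hm q hq
      rw [mem_preimage, ← hqf]
      exact this
    rw [hVe] at h1
    have h2 := hf x (Agree.refl _ _)
    have h3 : f.1 x = false := h1
    rw [h3] at h2
    exact absurd h2 (by simp [o])
  · have hp' : g (col x n) ∈ Wᶜ := fun h => hp (hWV h)
    obtain ⟨m, hm⟩ := exists_agree_subset (hg.continuousAt (hWc.isOpen_compl.mem_nhds hp'))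
    obtain ⟨f, ⟨⟨q, hq, hqf⟩, hft⟩, hf⟩ := hx n m z
    have h1 : e f ∈ Wᶜ := by
      rw [← hqf]
      exact hm q hq
    apply h1
    apply hUW
    apply hsub
    intro y hy
    have h2 : f.1 y = false := by
      by_cases hxy : Agree x n y
      · rw [hn y hy hxy]
        exact hf x (Agree.refl _ _)
      · exact hft y hxy
    have h3 : (z.1 y) ∈ t y := mem_of_mem_nhds (ht y)
    rw [h2]
    exact h3

end main

end Pool.Agent.Lib.MP_2beacb_gt
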