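import Mathlib

set_option autoImplicit false

/-!
Continuous surjections between the irrationals and the Baire space (both directions).
-/

namespace Pool.Agent.Lib.MP_2beacb_gt

open Function Set Topology

/-- The irrationals. -/
abbrev Irr : Type := {x : ℝ // Irrational x}

theorem exists_onto_irr : ∃ f : (ℕ → ℕ) → Irr, Continuous f ∧ Surjective f := by
  have hm : MeasurableSet {x : ℝ | Irrational x} := IsGδ.setOfPred_irrational.measurableSet
  have ha := hm.analyticSet
  rw [MeasureTheory.AnalyticSet] at ha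
  rcases ha with ha | ⟨f, hf, hr⟩
  · exfalso
    have : Real.pi ∈ {x : ℝ | Irrational x} := irrational_pi
    rw [ha] at this
    exact this
  · have hmem : ∀ p, Irrational (f p) := fun p => by
      have : f p ∈ range f := mem_range_self p
      rw [hr] at this
      exact this
    refine ⟨fun p => ⟨f p, hmem p⟩, hf.subtype_mk _, ?_⟩
    rintro ⟨x, hx⟩
    have : x ∈ range f := by rw [hr]; exact hx
    obtain ⟨p, hp⟩ := this
    exact ⟨p, Subtype.ext hp⟩

theorem continuous_floor_irr : Continuous fun x : Irr => ⌊x.1⌋ := by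
  apply IsLocallyConstant.continuous
  rw [IsLocallyConstant.iff_eventually_eq]
  intro x
  have h1 : ((⌊x.1⌋ : ℤ) : ℝ) < x.1 :=
    lt_of_le_of_ne (Int.floor_le _) (x.2.ne_int _).symm
  have h2 : x.1 < (⌊x.1⌋ : ℝ) + 1 := Int.lt_floor_add_one _
  have h3 : ∀ᶠ y : Irr in 𝓝 x, y.1 ∈ Ioo ((⌊x.1⌋ : ℤ) : ℝ) ((⌊x.1⌋ : ℝ) + 1) :=
    continuous_subtype_val.continuousAt (Ioo_mem_nhds h1 h2)
  filter_upwards [h3] with y hy
  exact Int.floor_eq_iff.2 ⟨hy.1.le, hy.2⟩

/-- The Gauss map. -/
noncomputable def gauss (x : Irr) : Irr :=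
  ⟨(x.1 - (⌊x.1⌋ : ℝ))⁻¹, (x.2.sub_intCast _).inv⟩

theorem continuous_gauss : Continuous gauss := by
  refine Continuous.subtype_mk ?_ _
  refine Continuous.inv₀ ?_ fun x => (x.2.sub_intCast _).ne_zero
  exact continuous_subtype_val.sub
    ((continuous_of_discreteTopology (f := fun n : ℤ => (n : ℝ))).comp continuous_floor_irr)

theorem exists_finite_cf (N : ℕ) : ∀ a : ℕ → ℕ, ∃ y : ℕ → ℝ,
    (∀ n, y n ∈ Icc ((a n : ℝ) + 1) ((a n : ℝ) + 2)) ∧
      ∀ n < N, (y n - ((a n : ℝ) + 1)) * y (n + 1) = 1 := by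
  induction N with
  | zero =>
    intro a
    exact ⟨fun n => a n + 1, fun n => ⟨le_rfl, by linarith⟩, fun n hn => absurd hn (Nat.not_lt_zero n)⟩
  | succ N ih =>
    intro a
    obtain ⟨y, hy, hy'⟩ := ih fun n => a (n + 1)
    have h0 : 1 ≤ y 0 := by
      have := (hy 0).1
      have h2 : (0 : ℝ) ≤ a 1 := Nat.cast_nonneg _
      simp only [zero_add] at this
      linarith
    refine ⟨fun n => Nat.casesOn n ((a 0 : ℝ) + 1 + (y 0)⁻¹) y, ?_, ?_⟩
    · intro n
      cases n with
      | zero =>
        have h1 : (y 0)⁻¹ ≤ 1 := inv_le_one_of_one_le₀ h0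
        have h2 : 0 ≤ (y 0)⁻¹ := inv_nonneg.2 (by linarith)
        constructor
        · show (a 0 : ℝ) + 1 ≤ (a 0 : ℝ) + 1 + (y 0)⁻¹
          linarith
        · show (a 0 : ℝ) + 1 + (y 0)⁻¹ ≤ (a 0 : ℝ) + 2
          linarith
      | succ n => exact hy n
    · intro n hn
      cases n with
      | zero =>
        show ((a 0 : ℝ) + 1 + (y 0)⁻¹ - ((a 0 : ℝ) + 1)) * y 0 = 1
        have : y 0 ≠ 0 := by linarith
        field_simp
        ring
      | succ n => exact hy' n (by omega)

theorem exists_cf (a : ℕ → ℕ) : ∃ y : ℕ → ℝ,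
    (∀ n, y n ∈ Icc ((a n : ℝ) + 1) ((a n : ℝ) + 2)) ∧
      ∀ n, (y n - ((a n : ℝ) + 1)) * y (n + 1) = 1 := by
  let K : Set (ℕ → ℝ) := {y | ∀ n, y n ∈ Icc ((a n : ℝ) + 1) ((a n : ℝ) + 2)}
  have hK : IsCompact K := isCompact_pi_infinite fun n => isCompact_Icc
  let C : ℕ → Set (ℕ → ℝ) := fun N =>
    K ∩ {y | ∀ n < N, (y n - ((a n : ℝ) + 1)) * y (n + 1) = 1}
  have hCc : ∀ N, IsClosed (C N) := by
    intro N
    refine hK.isClosed.inter ?_
    have : {y : ℕ → ℝ | ∀ n < N, (y n - ((a n : ℝ) + 1)) * y (n + 1) = 1} =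
        ⋂ n ∈ Iio N, {y : ℕ → ℝ | (y n - ((a n : ℝ) + 1)) * y (n + 1) = 1} := by
      ext y
      simp
    rw [this]
    exact isClosed_biInter fun n _ => isClosed_eq (by fun_prop) continuous_const
  obtain ⟨y, hy⟩ := IsCompact.nonempty_iInter_of_sequence_nonempty_isCompact_isClosed C
    (fun N y hy => ⟨hy.1, fun n hn => hy.2 n (Nat.lt_succ_of_lt hn)⟩)
    (fun N => by
      obtain ⟨y, h1, h2⟩ := exists_finite_cf N a
      exact ⟨y, h1, h2⟩)
    (hK.of_isClosed_subset (hCc 0) inter_subset_left) hCc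
  rw [mem_iInter] at hy
  exact ⟨y, (hy 0).1, fun n => (hy (n + 1)).2 n (Nat.lt_succ_self n)⟩

theorem exists_from_irr : ∃ r : Irr → (ℕ → ℕ), Continuous r ∧ Surjective r := by
  refine ⟨fun x n => ⌊(gauss^[n] x).1⌋.toNat - 1, ?_, ?_⟩
  · refine continuous_pi fun n => ?_
    exact (continuous_of_discreteTopology (f := fun m : ℤ => m.toNat - 1)).comp
      (continuous_floor_irr.comp (continuous_gauss.iterate n))
  · intro a
    obtain ⟨y, hy, hy'⟩ := exists_cf a
    have h1 : ∀ n, 1 ≤ y n := fun n => by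
      have := (hy n).1
      have h2 : (0 : ℝ) ≤ a n := Nat.cast_nonneg _
      linarith
    have hpos : ∀ n, 0 < y n - ((a n : ℝ) + 1) := fun n => by
      by_contra h
      push Not at h
      have := mul_nonpos_of_nonpos_of_nonneg h (le_trans zero_le_one (h1 (n + 1)))
      rw [hy' n] at this
      linarith
    have h1' : ∀ n, 1 < y n := fun n => by
      have := hpos n
      have h2 : (0 : ℝ) ≤ a n := Nat.cast_nonneg _
      linarith
    have hlt : ∀ n, y n - ((a n : ℝ) + 1) < 1 := fun n => by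
      by_contra h
      push Not at h
      have := hy' n
      have := h1' (n + 1)
      nlinarith
    have hdesc : ∀ d : ℕ, ∀ n, ∀ p : ℤ, 0 < d → y n * d = p → False := by
      intro d
      induction d using Nat.strong_induction_on with
      | _ d ih =>
        intro n p hd hp
        have hd' : (0 : ℝ) < d := by exact_mod_cast hd
        have he : (y n - ((a n : ℝ) + 1)) * d = ((p - (a n + 1) * d : ℤ) : ℝ) := by
          push_cast
          linarith
        have hq0 : (0 : ℤ) < p - (a n + 1) * d := by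
          have : (0 : ℝ) < ((p - (a n + 1) * d : ℤ) : ℝ) := by
            rw [← he]; exact mul_pos (hpos n) hd'
          exact_mod_cast this
        have hq1 : p - (a n + 1) * d < d := by
          have : ((p - (a n + 1) * d : ℤ) : ℝ) < ((d : ℤ) : ℝ) := by
            rw [← he]
            have := hlt n
            push_cast
            nlinarith
          exact_mod_cast this
        refine ih (p - (a n + 1) * d).toNat (by omega) (n + 1) d (by omega) ?_
        have hc : (((p - (a n + 1) * d).toNat : ℕ) : ℝ) = ((p - (a n + 1) * d : ℤ) : ℝ) := by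
          have := Int.toNat_of_nonneg hq0.le
          exact_mod_cast congrArg (fun z : ℤ => (z : ℝ)) this
        rw [hc, ← he]
        have := hy' n
        push_cast
        linear_combination (d : ℝ) * this
    have hirr : ∀ n, Irrational (y n) := by
      rintro n ⟨q, hq⟩
      refine hdesc q.den n q.num q.den_pos ?_
      rw [← hq]
      exact_mod_cast Rat.mul_den_eq_num q
    have hfl : ∀ n, ⌊y n⌋ = (a n : ℤ) + 1 := fun n => by
      rw [Int.floor_eq_iff]
      have := hpos n
      have := hlt n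
      push_cast
      constructor <;> linarith
    have hit : ∀ n, gauss^[n] ⟨y 0, hirr 0⟩ = ⟨y n, hirr n⟩ := by
      intro n
      induction n with
      | zero => rfl
      | succ n ih =>
        rw [iterate_succ_apply', ih]
        apply Subtype.ext
        show (y n - (⌊y n⌋ : ℝ))⁻¹ = y (n + 1)
        rw [hfl n]
        push_cast
        exact inv_eq_of_mul_eq_one_right (hy' n)
    refine ⟨⟨y 0, hirr 0⟩, funext fun n => ?_⟩
    show ⌊(gauss^[n] ⟨y 0, hirr 0⟩).1⌋.toNat - 1 = a n
    rw [hit n]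
    show ⌊y n⌋.toNat - 1 = a n
    rw [hfl n]
    omega

end Pool.Agent.Lib.MP_2beacb_gt
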